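import Pool.Agent.COV.StmtsA

set_option autoImplicit false

/-!
COV, row GPO: the quotient is a polynomial.
-/

namespace Pool.Agent.COV.H23

open Polynomial

theorem no_root {k : Type} [Field k] [CharZero k] (F N V s D : k[X]) (hF : Squarefree F)
    (hV : V ≠ 0) (hc : IsCoprime N V)
    (h : V ^ 2 * s * D = N * V * derivative F - 2 * (derivative N * V - N * derivative V) * F)
    (x : k) : V.eval x ≠ 0 := by
  intro hx
  obtain ⟨U, hU, hnd⟩ := exists_eq_pow_rootMultiplicity_mul_and_not_dvd V hV x
  have hm : 0 < V.rootMultiplicity x := (rootMultiplicity_pos hV).2 hx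
  obtain ⟨m, hm'⟩ := Nat.exists_eq_succ_of_ne_zero hm.ne'
  rw [hm', Nat.succ_eq_add_one] at hU
  have hT0 : (X - C x : k[X]) ≠ 0 := X_sub_C_ne_zero x
  have hTe : (X - C x : k[X]).eval x = 0 := by simp
  have hdT : derivative (X - C x : k[X]) = 1 := by simp
  have hdv : ∀ P : k[X], P.eval x = 0 → ∃ Q, P = (X - C x) * Q := fun P hP => by
    obtain ⟨Q, hQ⟩ := dvd_iff_isRoot.2 (show P.IsRoot x from hP)
    exact ⟨Q, hQ⟩
  have hUx : U.eval x ≠ 0 := fun e => hnd (dvd_iff_isRoot.2 e)
  have hNx : N.eval x ≠ 0 := by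
    intro e
    obtain ⟨a, b, hab⟩ := hc
    have := congrArg (eval x) hab
    simp [e, hx] at this
  generalize (X - C x : k[X]) = T at *
  have hdV : derivative V = ((m : k[X]) + 1) * T ^ m * U + T ^ (m + 1) * derivative U := by
    rw [hU, derivative_mul, derivative_pow, hdT]
    simp
  have key : T ^ (m + 2) * U ^ 2 * s * D = N * T * U * derivative F -
      2 * derivative N * T * U * F + 2 * ((m : k[X]) + 1) * N * U * F +
      2 * N * T * derivative U * F := by
    apply mul_left_cancel₀ (pow_ne_zero m hT0)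
    rw [hdV, hU] at h
    linear_combination h
  have hm1 : ((m : k) + 1) ≠ 0 := Nat.cast_add_one_ne_zero m
  have hFx : F.eval x = 0 := by
    have e := congrArg (eval x) key
    simp only [eval_mul, eval_add, eval_sub, eval_pow, hTe] at e
    have e2 : (2 : k[X]).eval x = 2 := by
      have := eval_natCast (R := k) (x := x) (n := 2)
      simpa using this
    rw [e2] at e
    have e3 : 2 * ((m : k) + 1) * N.eval x * U.eval x * F.eval x = 0 := by
      have e4 : (m : k[X]).eval x = (m : k) := eval_natCast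
      rw [e4] at e
      rw [eval_one] at e
      rw [zero_pow (by omega)] at e
      linear_combination - e
    have e5 : 2 * ((m : k) + 1) * N.eval x * U.eval x ≠ 0 :=
      mul_ne_zero (mul_ne_zero (mul_ne_zero two_ne_zero hm1) hNx) hUx
    exact (mul_eq_zero.1 e3).resolve_left e5
  obtain ⟨G, hG⟩ := hdv F hFx
  have hdF : derivative F = G + T * derivative G := by
    rw [hG, derivative_mul, hdT, one_mul]
  have key2 : T ^ (m + 1) * U ^ 2 * s * D = N * U * (G + T * derivative G) -
      2 * derivative N * T * U * G + 2 * ((m : k[X]) + 1) * N * U * G +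
      2 * N * T * derivative U * G := by
    apply mul_left_cancel₀ hT0
    rw [hdF, hG] at key
    linear_combination key
  have hGx : G.eval x = 0 := by
    have e := congrArg (eval x) key2
    simp only [eval_mul, eval_add, eval_sub, eval_pow, hTe] at e
    have e2 : (2 : k[X]).eval x = 2 := by
      have := eval_natCast (R := k) (x := x) (n := 2)
      simpa using this
    rw [e2] at e
    have e4 : (m : k[X]).eval x = (m : k) := eval_natCast
    rw [e4] at e
    rw [eval_one, zero_pow (by omega)] at e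
    have e3 : (2 * (m : k) + 3) * N.eval x * U.eval x * G.eval x = 0 := by
      linear_combination - e
    have hm3 : (2 * (m : k) + 3) ≠ 0 := by
      have : ((2 * m + 3 : ℕ) : k) ≠ 0 := Nat.cast_ne_zero.2 (by omega)
      simpa using this
    have e5 : (2 * (m : k) + 3) * N.eval x * U.eval x ≠ 0 :=
      mul_ne_zero (mul_ne_zero hm3 hNx) hUx
    exact (mul_eq_zero.1 e3).resolve_left e5
  obtain ⟨H, hH⟩ := hdv G hGx
  have hsq : T * T ∣ F := ⟨H, by rw [hG, hH]; ring⟩
  have hunit := hF T hsq
  obtain ⟨W, hW⟩ := hunit.exists_right_inv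
  have := congrArg (eval x) hW
  simp [hTe] at this

/-- **GPO**. -/
theorem gpo : GpoStmt := by
  intro k _ _ _ F N V s D hF6 hsq hV hs hD h
  obtain ⟨g, N₁, V₁, hN, hVV, hc⟩ : ∃ g N₁ V₁ : k[X], N = g * N₁ ∧ V = g * V₁ ∧
      IsCoprime N₁ V₁ := by
    classical
    letI : GCDMonoid k[X] := UniqueFactorizationMonoid.toGCDMonoid _
    obtain ⟨N₁, V₁, hN, hVV, hu⟩ := extract_gcd N V
    exact ⟨_, N₁, V₁, hN, hVV, (gcd_isUnit_iff _ _).1 hu⟩
  have hg : g ≠ 0 := by
    rintro rfl
    exact hV (by rw [hVV, zero_mul])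
  have hV1 : V₁ ≠ 0 := by
    rintro rfl
    exact hV (by rw [hVV, mul_zero])
  have h1 : V₁ ^ 2 * s * D = N₁ * V₁ * derivative F -
      2 * (derivative N₁ * V₁ - N₁ * derivative V₁) * F := by
    apply mul_left_cancel₀ (pow_ne_zero 2 hg)
    rw [hN, hVV, derivative_mul, derivative_mul] at h
    linear_combination h
  have hnr := no_root F N₁ V₁ s D hsq hV1 hc h1
  have hdeg : V₁.degree = 0 := by
    by_contra hne
    obtain ⟨x, hx⟩ := IsAlgClosed.exists_root V₁ hne
    exact hnr x hx
  obtain ⟨c, hcV⟩ : ∃ c, V₁ = C c := ⟨_, eq_C_of_degree_eq_zero hdeg⟩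
  have hc0 : c ≠ 0 := by
    rintro rfl
    exact hV1 (by rw [hcV, C_0])
  have hR : s * D = (C c⁻¹ * N₁) * derivative F - 2 * derivative (C c⁻¹ * N₁) * F := by
    have hcc : (C c⁻¹ : k[X]) * C c = 1 := by rw [← C_mul, inv_mul_cancel₀ hc0, C_1]
    rw [hcV, derivative_C] at h1
    have h2 : C c * (s * D) = N₁ * derivative F - 2 * derivative N₁ * F := by
      apply mul_left_cancel₀ (C_ne_zero.2 hc0)
      linear_combination h1
    rw [derivative_C_mul]
    calc s * D = (C c⁻¹ * C c) * (s * D) := by rw [hcc, one_mul]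
      _ = C c⁻¹ * (C c * (s * D)) := by ring
      _ = _ := by rw [h2]; ring
  refine ⟨C c⁻¹ * N₁, ?_, hR⟩
  generalize C c⁻¹ * N₁ = R at hR
  by_contra hcon
  push Not at hcon
  obtain ⟨r, hr⟩ : ∃ r, R.natDegree = r + 1 := ⟨R.natDegree - 1, by omega⟩
  have hsD : (s * D).coeff (r + 6) = 0 := by
    apply coeff_eq_zero_of_natDegree_lt
    have := natDegree_mul_le (p := s) (q := D)
    omega
  have e1 : (R * derivative F).coeff (r + 1 + 5) = R.coeff (r + 1) * (derivative F).coeff 5 := by
    apply coeff_mul_add_eq_of_natDegree_le hr.le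
    have := natDegree_derivative_le F
    omega
  have e2 : (derivative R * F).coeff (r + 6) = (derivative R).coeff r * F.coeff 6 := by
    apply coeff_mul_add_eq_of_natDegree_le _ hF6.le
    have := natDegree_derivative_le R
    omega
  have e3 := congrArg (fun P : k[X] => P.coeff (r + 6)) hR
  simp only [coeff_sub, hsD, mul_assoc, coeff_ofNat_mul] at e3
  rw [show r + 6 = r + 1 + 5 from rfl, e1, show r + 1 + 5 = r + 6 from rfl, e2,
    coeff_derivative, coeff_derivative] at e3
  have hl1 : R.coeff (r + 1) ≠ 0 := by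
    rw [← hr]
    apply leadingCoeff_ne_zero.2
    rintro rfl
    simp at hr
  have hl2 : F.coeff 6 ≠ 0 := by
    rw [← hF6]
    apply leadingCoeff_ne_zero.2
    rintro rfl
    simp at hF6
  have e4 : R.coeff (r + 1) * F.coeff 6 * (4 - 2 * (r : k)) = 0 := by
    push_cast at e3
    linear_combination - e3
  have hr3 : (4 - 2 * (r : k)) ≠ 0 := by
    intro e
    have e5 : ((2 * r : ℕ) : k) = ((4 : ℕ) : k) := by
      push_cast
      linear_combination - e
    have := Nat.cast_injective e5
    omega
  exact mul_ne_zero (mul_ne_zero hl1 hl2) hr3 e4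

end Pool.Agent.COV.H23
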